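import Pool.Agent.N931.PN.Stm2
import Pool.Agent.N144.EW.DetA

/-!
Project PN (helper931): two arms from a long excursion behind a block.
-/

set_option autoImplicit false

namespace Pool.Agent.N79.PN.NXB

open H974 H12S H389NS H984N H984P H342P Finset
open Pool.Agent.N116.EW Pool.Agent.N931.PN
open Pool.Agent.N144.EW

/-- The arms near the boundary, for a vertex and a face close to the box of radius `d`. -/
theorem nx_gen {D : Dm} (hD : D.Ok) {B : Finset Edg} {z x y : Vtx} {d R : ℕ} (hx : sd x z ≤ d)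
    (hy : sd y z ≤ d + 1) (hxc : x ∈ D.clu B) (hyc : y ∈ D.dclu B) : NX D z d R B := by
  constructor
  · intro hfar
    have h0 : ((0, 0) : Vtx) ∈ wv D := by
      refine ⟨(-1, 0, true), ?_, Or.inr ?_⟩
      · right; right
        exact ⟨rfl, rfl, by have := hD.l_neg; simp only; omega, by norm_num⟩
      · simp
    have hxc' : Reach (D.cfg B) x (0, 0) := Reach.symm hxc
    obtain ⟨w, hw1, hw2⟩ := firstOut (hfar _ h0) hxc'
    have hw3 : Reach (↑B : Set Edg) x w := by
      refine hw2.mono ?_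
      rintro g ⟨hg1 | hg1, hg2⟩
      · exact hg1
      · exfalso
        have h1 := hfar (src g) ⟨g, hg1, Or.inl rfl⟩
        have h2 := hfar (tgt g) ⟨g, hg1, Or.inr rfl⟩
        rcases hg2 with h | h
        · exact absurd h (not_lt.2 h1)
        · exact absurd h (not_lt.2 h2)
    obtain ⟨u, hu1, hu2⟩ := lastBox (c := z) (d := d) hx hw3
    exact ⟨u, w, hu1, hw1, hu2⟩
  · intro hfar
    obtain ⟨g, hg, hgy⟩ := hyc
    obtain ⟨u, hu1, hu2⟩ := lastBoxD (c := z) (d := d) hy hgy.symm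
    refine ⟨u, g, hu1, hfar g hg, hu2.mono ?_⟩
    rintro e ⟨⟨h1, h2⟩, h3⟩
    exact ⟨h1, h2, h3⟩

theorem nx_edge {D : Dm} (hD : D.Ok) {G B : Finset Edg} {z x y : Vtx} {d R : ℕ} {e : Edg}
    (hB : B ⊆ blk z d) (heG : e ∈ G) (heF : e ∉ D.cfg (G \ B)) (hx : x = src e ∨ x = tgt e)
    (hy : y = dsrc e ∨ y = dtgt e) (hxc : x ∈ D.clu (G \ B)) (hyc : y ∈ D.dclu G) :
    NX D z d R G := by
  have heB : e ∈ B := by
    by_contra h
    exact heF (Or.inl (Finset.mem_coe.2 (Finset.mem_sdiff.2 ⟨heG, h⟩)))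
  have hb := blk_iff.1 (hB heB)
  have hf := dface_near hb.1 hb.2
  refine nx_gen hD ?_ ?_ (Pool.Agent.N144.EW.clu_mono Finset.sdiff_subset hxc) hyc
  · rcases hx with rfl | rfl
    · exact hb.1
    · exact hb.2
  · rcases hy with rfl | rfl
    · exact hf.1
    · exact hf.2

theorem main : Pool.Agent.N931.PN.S_NXB := by
  intro D hD G B hG z d R ρ hd hB hLG
  rcases hLG with h | h
  · obtain ⟨e, heG, heF, x, v, y, hxv, hy, hx, hv, hyc, w, hw, hvw⟩ := h
    refine nx_edge hD hB heG heF ?_ hy hx hyc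
    rcases hxv with ⟨h1, _⟩ | ⟨h1, _⟩
    · exact Or.inl h1
    · exact Or.inr h1
  · obtain ⟨e, heG, heF, x, y, z', hxe, hyz, hx, hyc, hz, w, hw, hzw⟩ := h
    refine nx_edge hD hB heG heF hxe ?_ hx hyc
    rcases hyz with ⟨h1, _⟩ | ⟨h1, _⟩
    · exact Or.inl h1
    · exact Or.inr h1

end Pool.Agent.N79.PN.NXB
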